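import Pool.Agent.T6helper6.AF.Spl

/-!
# Deligne's decomposition
-/

set_option autoImplicit false
set_option linter.unusedSectionVars false
set_option linter.unusedSimpArgs false
set_option backward.isDefEq.respectTransparency false
set_option backward.defeqAttrib.useBackward true

open CategoryTheory Limits MonoidalCategory Pretriangulated Triangulated ZeroObject

namespace Pool.Agent.T6helper6.AF

open Pool.Agent.Y116.MT Pool.Agent.V1178.MT Pool.Agent.T6helper6.MT Pool.Agent.T6helper6.FF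

universe v u w

section

variable {C : Type u} [Category.{v} C] [Preadditive C] [HasZeroObject C] [HasShift C ℤ]
  [∀ n : ℤ, (shiftFunctor C n).Additive] [Pretriangulated C] [MonoidalCategory C]
  [SymmetricCategory C] [TensorTriangulated C] [MonoidalPreadditive C] [RightRigidCategory C]
  [IsTriangulated C] {t : TStructure C} {E : Type w} [Field E] {R : Realisation C E}

/-- An object with the hard Lefschetz theorem is split. -/
lemma spl_of_lefschetz (ht : TensorCompat t) (he : TExact t R) (hc : Conservative R) {T T' : C}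
    (eT : T ⊗ T' ≅ 𝟙_ C) (hT : Cn t (-2) T) (e : ℤ) (k : ℕ) : ∀ M : C,
      HardLefschetz R T M e → t.IsGE M (e - k) → t.IsLE M (e + k) → Spl t M := by
  induction k with
  | zero =>
    intro M _ h1 h2
    exact spl_cn (b := e) ⟨by simpa using h2, by simpa using h1⟩
  | succ k ih =>
    intro M hM h1 h2
    obtain ⟨L, hL⟩ := hM (k + 1)
    -- the lowest cohomology
    obtain ⟨A, Q, hA, hQ, a, q, d, hD⟩ := t.exists_triangle M (e - (k + 1 : ℕ)) (e - k)
      (by push_cast; ring)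
    have hA1 : t.IsLE A (e - (k + 1 : ℕ)) := ⟨hA⟩
    have hQ1 : t.IsGE Q (e - k) := ⟨hQ⟩
    have hA2 : t.IsGE A (e - (k + 1 : ℕ)) := isGE1 hD h1
      (@TStructure.isGE_of_ge _ _ _ _ _ _ _ t _ (e - (k + 1 : ℕ) - 1) (e - k) (by push_cast; omega)
        hQ1)
    have hQ2 : t.IsLE Q (e + (k + 1 : ℕ)) := isLE3 hD
      (@TStructure.isLE_of_le _ _ _ _ _ _ _ t _ (e - (k + 1 : ℕ)) (e + (k + 1 : ℕ) + 1)
        (by push_cast; omega) hA1) h2
    -- the highest cohomology
    obtain ⟨N, B, hN, hB, ν, π, d', hD'⟩ := t.exists_triangle M (e + k) (e + (k + 1 : ℕ))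
      (by push_cast; ring)
    have hN1 : t.IsLE N (e + k) := ⟨hN⟩
    have hB1 : t.IsGE B (e + (k + 1 : ℕ)) := ⟨hB⟩
    have hB2 : t.IsLE B (e + (k + 1 : ℕ)) := isLE3 hD'
      (@TStructure.isLE_of_le _ _ _ _ _ _ _ t _ (e + k) (e + (k + 1 : ℕ) + 1)
        (by push_cast; omega) hN1) h2
    have fπ : FibLE t (e + k) π := ⟨N, ν, d', hD', hN1⟩
    -- the isomorphism
    have hB3 : Cn t (e - (k + 1 : ℕ)) (twist T B (k + 1)) := by
      have b1 := twist_le ht hT hB2 (k + 1)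
      have b2 := twist_ge ht hT hB1 (k + 1)
      rw [show e + ((k + 1 : ℕ) : ℤ) - 2 * ((k + 1 : ℕ) : ℤ) = e - (k + 1 : ℕ) by ring] at b1 b2
      exact ⟨b1, b2⟩
    let c : A ⟶ twist T B (k + 1) := a ≫ L ≫ twMap T π (k + 1)
    have hc1 : IsIso c := by
      apply isIso_of_conservative hc
      intro i
      by_cases hi : i = e - (k + 1 : ℕ)
      · have i1 : IsIso (R.H.map (a⟦i⟧')) := isIso_trunc he hD
          (@TStructure.isGE_of_ge _ _ _ _ _ _ _ t _ (i + 1) (e - k) (by push_cast at hi; omega) hQ1)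
        have i2 : IsIso (R.H.map (L⟦i⟧')) := by rw [hi]; exact hL
        have i3 : IsIso (R.H.map ((twMap T π (k + 1))⟦i⟧')) :=
          (fπ.twMap ht hT (k + 1)).isIso he (by push_cast at hi ⊢; omega)
        simp only [c, Functor.map_comp]
        infer_instance
      · have z1 : IsZero (R.H.obj (A⟦i⟧)) := Cn.deg he ⟨hA1, hA2⟩ i hi
        have z2 : IsZero (R.H.obj ((twist T B (k + 1))⟦i⟧)) := Cn.deg he hB3 i hi
        exact ⟨0, z1.eq_of_src _ _, z2.eq_of_src _ _⟩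
    let ρ : M ⟶ A := L ≫ twMap T π (k + 1) ≫ inv c
    have hρ : a ≫ ρ = 𝟙 A := by
      simp only [ρ]
      rw [← Category.assoc, ← Category.assoc, Category.assoc a]
      exact IsIso.hom_inv_id c
    obtain ⟨σ, hσ⟩ : ∃ σ : B ⟶ M, σ ≫ π = 𝟙 B := by
      apply section_of_twMap eT π (k + 1)
      refine ⟨inv c ≫ a ≫ L, ?_⟩
      simp only [Category.assoc]
      exact IsIso.inv_hom_id c
    -- the splitting of the first triangle
    have hd : d = 0 := by
      have h3 : d = (d ≫ a⟦(1 : ℤ)⟧') ≫ ρ⟦(1 : ℤ)⟧' := by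
        rw [Category.assoc, ← Functor.map_comp, hρ, CategoryTheory.Functor.map_id, Category.comp_id]
      rw [h3, comp31 hD, zero_comp]
    obtain ⟨s, r, hs, hr, hrs, htot⟩ := split_iso hD hd
    -- the quotient `B` of `Q`
    obtain ⟨β, hβ⟩ := ye2 hD π (t.zero_of_isLE_of_isGE _ (e - (k + 1 : ℕ)) (e + (k + 1 : ℕ))
      (by push_cast; omega) hA1 hB1)
    have hγ : (σ ≫ q) ≫ β = 𝟙 B := by rw [Category.assoc, ← hβ, hσ]
    obtain ⟨M₂, i₁, d₂, hD₂⟩ := distinguished_cocone_triangle₁ β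
    have hd₂ : d₂ = 0 := by
      rw [← Category.id_comp d₂, ← hγ, Category.assoc, comp23 hD₂, comp_zero]
    obtain ⟨s₂, r₂, hs₂, hr₂, hrs₂, htot₂⟩ := split_iso hD₂ hd₂
    have hid : s ≫ a + (q ≫ s₂) ≫ (i₁ ≫ r) + (q ≫ β) ≫ (r₂ ≫ r) = 𝟙 M := by
      rw [← htot, add_assoc]
      congr 1
      calc (q ≫ s₂) ≫ i₁ ≫ r + (q ≫ β) ≫ r₂ ≫ r = q ≫ (s₂ ≫ i₁ + β ≫ r₂) ≫ r := by
            simp only [Preadditive.add_comp, Preadditive.comp_add, Category.assoc]
        _ = q ≫ r := by rw [htot₂, Category.id_comp]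
    have hir : (i₁ ≫ r) ≫ (q ≫ s₂) = 𝟙 M₂ := by
      rw [Category.assoc, reassoc_of% hr, hs₂]
    have zA : ∀ n : ℤ, n ≠ e - (k + 1 : ℕ) → IsZero (R.H.obj (A⟦n⟧)) :=
      fun n hn => Cn.deg he ⟨hA1, hA2⟩ n hn
    have zB : ∀ n : ℤ, n ≠ e + (k + 1 : ℕ) → IsZero (R.H.obj (B⟦n⟧)) :=
      fun n hn => Cn.deg he ⟨hB2, hB1⟩ n hn
    -- the bounds for `M₂`
    have g1 : t.IsGE M₂ (e - k) := isGE1 hD₂ hQ1
      (@TStructure.isGE_of_ge _ _ _ _ _ _ _ t _ (e - k - 1) (e + (k + 1 : ℕ)) (by push_cast; omega)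
        hB1)
    have g2 : t.IsLE M₂ (e + k) := by
      apply isLE_of hc he
      intro n hn
      by_cases hn1 : n = e + (k + 1 : ℕ)
      · have j1 : IsIso (R.H.map (π⟦n⟧')) := fπ.isIso he hn
        have j2 : IsIso (R.H.map (q⟦n⟧')) := isIso_trunc' he hD
          (@TStructure.isLE_of_le _ _ _ _ _ _ _ t _ (e - (k + 1 : ℕ)) (n - 1)
            (by push_cast at hn1 ⊢; omega) hA1)
        have j3 : IsIso (R.H.map (β⟦n⟧')) := by
          have j4 : R.H.map (q⟦n⟧') ≫ R.H.map (β⟦n⟧') = R.H.map (π⟦n⟧') := by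
            rw [← Functor.map_comp, ← Functor.map_comp, hβ]
          exact IsIso.of_isIso_fac_left j4
        have j5 : R.H.map (i₁⟦n⟧') = 0 := by
          rw [← cancel_mono (R.H.map (β⟦n⟧')), zero_comp, ← Functor.map_comp, ← Functor.map_comp,
            comp12 hD₂, Functor.map_zero, Functor.map_zero]
        rw [IsZero.iff_id_eq_zero]
        have j6 : 𝟙 (R.H.obj (M₂⟦n⟧)) = R.H.map (i₁⟦n⟧') ≫ R.H.map (s₂⟦n⟧') := by
          rw [← Functor.map_comp, ← Functor.map_comp, hs₂, CategoryTheory.Functor.map_id,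
            CategoryTheory.Functor.map_id]
        rw [j6, j5, zero_comp]
      · have j1 : t.IsLE M₂ (e + (k + 1 : ℕ)) := isLE_retract hQ2 i₁ s₂ hs₂
        exact he.isLE j1 n (by push_cast at hn1 ⊢; omega)
    -- the hard Lefschetz theorem for `M₂`
    have hM₂ : HardLefschetz R T M₂ e := by
      intro j
      by_cases hj : j ≤ k
      · obtain ⟨L', hL'⟩ := hM j
        refine ⟨(i₁ ≫ r) ≫ L' ≫ twMap T (q ≫ s₂) j, ?_⟩
        have k1 := (isIso_of_decomp (R := R) (n := e - j) hid hir (zA _ (by push_cast; omega))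
          (zB _ (by push_cast; omega))).2
        have hid' : twMap T s j ≫ twMap T a j + twMap T (q ≫ s₂) j ≫ twMap T (i₁ ≫ r) j +
            twMap T (q ≫ β) j ≫ twMap T (r₂ ≫ r) j = 𝟙 (twist T M j) := by
          rw [← twMap_comp, ← twMap_comp, ← twMap_comp, ← twMap_add, ← twMap_add, hid, twMap_id]
        have hir' : twMap T (i₁ ≫ r) j ≫ twMap T (q ≫ s₂) j = 𝟙 (twist T M₂ j) := by
          rw [← twMap_comp, hir, twMap_id]
        have zA' : IsZero (R.H.obj ((twist T A j)⟦e - (j : ℤ)⟧)) := by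
          have b1 := twist_le ht hT hA1 j
          exact he.isLE b1 _ (by push_cast; omega)
        have zB' : IsZero (R.H.obj ((twist T B j)⟦e - (j : ℤ)⟧)) := by
          have b1 := twist_ge ht hT hB1 j
          exact he.isGE b1 _ (by push_cast; omega)
        have k2 := (isIso_of_decomp (R := R) (n := e - j) hid' hir' zA' zB').1
        have k3 : IsIso (R.H.map (L'⟦e - (j : ℤ)⟧')) := hL'
        have e1 : R.H.map (((i₁ ≫ r) ≫ L' ≫ twMap T (q ≫ s₂) j)⟦e - (j : ℤ)⟧') =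
            R.H.map ((i₁ ≫ r)⟦e - (j : ℤ)⟧') ≫ R.H.map (L'⟦e - (j : ℤ)⟧') ≫
              R.H.map ((twMap T (q ≫ s₂) j)⟦e - (j : ℤ)⟧') := by
          simp only [Functor.map_comp, Category.assoc]
        rw [e1]
        exact IsIso.comp_isIso' k1 (IsIso.comp_isIso' k3 k2)
      · refine ⟨0, ?_⟩
        have z1 : IsZero (R.H.obj (M₂⟦e - (j : ℤ)⟧)) := he.isGE g1 _ (by omega)
        have z2 : IsZero (R.H.obj ((twist T M₂ j)⟦e - (j : ℤ)⟧)) :=
          he.isLE (twist_le ht hT g2 j) _ (by omega)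
        exact ⟨0, z1.eq_of_src _ _, z2.eq_of_src _ _⟩
    have S₂ : Spl t M₂ := ih M₂ hM₂ g1 g2
    have SQ : Spl t Q := Spl.of_id htot₂ S₂ (spl_cn (b := e + (k + 1 : ℕ)) ⟨hB2, hB1⟩)
    exact Spl.of_id htot (spl_cn (b := e - (k + 1 : ℕ)) ⟨hA1, hA2⟩) SQ

end

end Pool.Agent.T6helper6.AF
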