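import Pool.Agent.T6helper6.AF.Back
import Pool.Agent.T6helper6.AF.HL

/-!
# The motivic t-structure implies the conjectures on Chow motives
-/

set_option autoImplicit false
set_option linter.unusedSectionVars false
set_option linter.unusedSimpArgs false
set_option backward.isDefEq.respectTransparency false
set_option backward.defeqAttrib.useBackward true

open CategoryTheory Limits MonoidalCategory Pretriangulated Triangulated ZeroObject

namespace Pool.Agent.T6helper6.AF

open Pool.Agent.Y116.MT Pool.Agent.V1178.MT Pool.Agent.T6helper6.MT Pool.Agent.T6helper6.FF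

universe v u w

section

variable {C : Type u} [Category.{v} C] [Preadditive C] [HasZeroObject C] [HasShift C ℤ]
  [∀ n : ℤ, (shiftFunctor C n).Additive] [Pretriangulated C] [MonoidalCategory C]
  [SymmetricCategory C] [TensorTriangulated C] [MonoidalPreadditive C] [RightRigidCategory C]
  [IsTriangulated C]
  [Linear ℚ C] {Λ : Type*} {E : Λ → Type w} [∀ l, Field (E l)] [∀ l, CharZero (E l)]
  {R : ∀ l, Realisation C (E l)} {l₀ : Λ} {P : C → Prop} {T : C}
  (h : IsChow (R l₀) P T)

include h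

lemma idem_unit' (e : 𝟙_ C ⟶ 𝟙_ C) (he : e ≫ e = e) : e = 0 ∨ e = 𝟙 _ := by
  obtain ⟨q, rfl⟩ := h.unit_scalar e
  rw [Linear.smul_comp, Linear.comp_smul, Category.comp_id, smul_smul] at he
  have h1 : (q * q - q) • 𝟙 (𝟙_ C) = 0 := by rw [sub_smul, he, sub_self]
  have h2 : q * q - q = 0 := by
    by_contra h3
    apply scalar_ne_zero (R l₀) h3
    rw [h1, Functor.map_zero]
  have h3 : q * (q - 1) = 0 := by rw [← h2]; ring
  rcases mul_eq_zero.1 h3 with h4 | h4
  · left
    rw [h4, zero_smul]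
  · right
    rw [sub_eq_zero.1 h4, one_smul]

variable {t : TStructure C} (hm : IsMotivic t R)

include hm

lemma facts : TensorCompat t ∧ TExact t (R l₀) ∧ Hrt t (𝟙_ C) ∧ Conservative (R l₀) := by
  have ht : TensorCompat t := ⟨hm.tensor_le, hm.tensor_ge⟩
  have hu : Hrt t (𝟙_ C) := unit_hrt ht hm.nondeg_le hm.nondeg_ge
  have he : TExact t (R l₀) := ⟨hm.exact_le l₀, hm.exact_ge l₀⟩
  exact ⟨ht, he, hu, fun X hX =>
    conservative ht he hu (idem_unit' h) hm.nondeg_le hm.nondeg_ge hX⟩

/-- Homological and numerical equivalence agree. -/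
lemma homNum : HomNum R P := by
  obtain ⟨ht, he, hu, hc⟩ := facts h hm
  intro M hM dM f hf
  have h1 : Cn t 0 M := cn_of_deg he hc (dM l₀)
  exact heart_pairing ht he hu (idem_unit' h) ⟨h1.1, h1.2⟩ P h.one
    (fun X hX => h.tensor hX hM) (fun X hX m hm f => h.positive hX h.one m hm f) f hf

/-- The vanishing conjectures. -/
lemma vanishing : Vanishing R P := by
  obtain ⟨ht, he, hu, hc⟩ := facts h hm
  intro M w hM dM n hn0 hnw hne f
  have h1 : Cn t w M := cn_of_deg he hc (dM l₀)
  have h2 : Cn t (w - n) (M⟦n⟧) := h1.shift n (w - n) (by omega)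
  by_cases hw : n = w
  · subst hw
    have h3 : Hrt t (M⟦n⟧) := by
      rw [sub_self] at h2
      exact ⟨h2.1, h2.2⟩
    apply faithful_heart ht he hu (idem_unit' h) hu h3
    have h4 := h.weights h.one hM n (by omega) f 0
    have h5 : f⟦(0 : ℤ)⟧' = (shiftFunctorZero C ℤ).hom.app _ ≫ f ≫
        (shiftFunctorZero C ℤ).inv.app _ := shiftZero' (A := ℤ) (f := f)
    rw [h5, Functor.map_comp, Functor.map_comp] at h4
    rw [← cancel_epi ((R l₀).H.map ((shiftFunctorZero C ℤ).hom.app (𝟙_ C))),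
      ← cancel_mono ((R l₀).H.map ((shiftFunctorZero C ℤ).inv.app (M⟦n⟧))), Category.assoc, h4,
      comp_zero, zero_comp]
  · exact t.zero_of_isLE_of_isGE f 0 (w - n) (by omega) hu.1 h2.2

/-- The injectivity conjectures. -/
lemma injectivity : Injectivity R l₀ P := by
  obtain ⟨ht, he, hu, hc⟩ := facts h hm
  intro M w hM dM n hn0 hnw f hf
  by_cases hne : n ≠ 0 ∨ w ≠ 0
  · exact vanishing h hm M w hM dM n hn0 hnw hne f
  · have h1 : Cn t w M := cn_of_deg he hc (dM l₀)
    have h2 : Cn t 0 (M⟦n⟧) := h1.shift n 0 (by omega)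
    exact faithful_heart ht he hu (idem_unit' h) hu ⟨h2.1, h2.2⟩ f hf

lemma homEqNum_of_sum {M : C} (hM : IsSum R P M) : ∀ f : 𝟙_ C ⟶ M, (R l₀).H.map f ≠ 0 →
    ∃ g : M ⟶ 𝟙_ C, f ≫ g ≠ 0 := by
  induction hM with
  | @zero X hX =>
    intro f hf
    exact absurd (((R l₀).H.map_isZero hX).eq_of_tgt _ _) hf
  | @sum X L Y n e hL dL _ ih =>
    intro f hf
    by_cases h1 : (R l₀).H.map (f ≫ e.hom ≫ biprod.fst) = 0
    · by_cases h2 : (R l₀).H.map (f ≫ e.hom ≫ biprod.snd) = 0
      · exfalso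
        apply hf
        have h3 : f = (f ≫ e.hom ≫ biprod.fst) ≫ biprod.inl ≫ e.inv +
            (f ≫ e.hom ≫ biprod.snd) ≫ biprod.inr ≫ e.inv := by
          calc f = f ≫ e.hom ≫ (biprod.fst ≫ biprod.inl + biprod.snd ≫ biprod.inr) ≫ e.inv := by
                rw [biprod.total, Category.id_comp, Iso.hom_inv_id, Category.comp_id]
            _ = _ := by
                simp only [Preadditive.add_comp, Preadditive.comp_add, Category.assoc]
        rw [h3, Functor.map_add, Functor.map_comp, h1, Functor.map_comp (R l₀).H _ (biprod.inr ≫ e.inv),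
          h2, zero_comp, zero_comp, add_zero]
      · obtain ⟨g, hg⟩ := ih _ h2
        exact ⟨e.hom ≫ biprod.snd ≫ g, by simpa only [Category.assoc] using hg⟩
    · have hn : n = 0 := by
        by_contra hn
        apply h1
        have h3 : IsZero ((R l₀).H.obj (L⟦(0 : ℤ)⟧)) := dL l₀ 0 (by omega)
        have h4 : IsZero ((R l₀).H.obj L) :=
          h3.of_iso ((R l₀).H.mapIso ((shiftFunctorZero C ℤ).app L)).symm
        exact h4.eq_of_tgt _ _
      subst hn
      obtain ⟨g, hg⟩ := homNum h hm L hL dL (f ≫ e.hom ≫ biprod.fst) (fun h0 => h1 (by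
        rw [h0, Functor.map_zero]))
      exact ⟨e.hom ≫ biprod.fst ≫ g, by simpa only [Category.assoc] using hg⟩

/-- Decomposition of split objects. -/
lemma sum_of_spl (k : ℕ) : ∀ (M : C) (a b : ℤ), b - a < k → t.IsGE M a → t.IsLE M b → P M →
    Spl t M → IsSum R P M := by
  induction k with
  | zero =>
    intro M a b hab h1 h2 _ _
    exact IsSum.zero (t.isZero M b a (by omega))
  | succ k ih =>
    intro M a b hab h1 h2 hM hs
    by_cases hba : b < a
    · exact IsSum.zero (t.isZero M b a (by omega))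
    obtain ⟨A, B, hA, hB, f, g, d, hT⟩ := t.exists_triangle M a (a + 1) rfl
    have hA1 : t.IsLE A a := ⟨hA⟩
    have hB1 : t.IsGE B (a + 1) := ⟨hB⟩
    have hA2 : t.IsGE A a := isGE1 hT h1 (t.isGE_of_ge B (a - 1) (a + 1))
    have hB2 : t.IsLE B b := isLE3 hT (@TStructure.isLE_of_le _ _ _ _ _ _ _ t _ a (b + 1)
      (by omega) hA1) h2
    have hd : d = 0 := hs a A B f g d hT hA1 hB1
    obtain ⟨e, -, -⟩ : ∃ e : M ≅ A ⊞ B, f ≫ e.hom = biprod.inl ∧ g = e.hom ≫ biprod.snd :=
      exists_iso_binaryBiproduct_of_distTriang _ hT hd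
    obtain ⟨s, r, hs1, hr1, -, htot⟩ := split_iso hT hd
    refine IsSum.sum e (n := a) (h.summand f s hs1 hM) (fun l => ?_)
      (ih B (a + 1) b (by push_cast at hab; omega) hB1 hB2 (h.summand r g hr1 hM)
        (hs.retract r g hr1))
    exact Cn.deg (⟨hm.exact_le l, hm.exact_ge l⟩ : TExact t (R l)) ⟨hA1, hA2⟩

/-- Chow-Künneth decompositions. -/
lemma chowKunneth : ChowKunneth R P := by
  obtain ⟨ht, he, hu, hc⟩ := facts h hm
  intro M hM
  obtain ⟨N, i, r, e, hir, hL⟩ := h.lefschetz hM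
  obtain ⟨T', ⟨eT⟩⟩ := h.invertible
  have hT : Cn t (-2) T := cn_of_deg he hc h.degree
  obtain ⟨a, b, hab, ha, hb⟩ := exists_bounds he hc N
  let k : ℕ := (|e - a| + |e - b|).toNat
  have hk : (k : ℤ) = |e - a| + |e - b| := Int.toNat_of_nonneg (by positivity)
  have h1 := le_abs_self (e - a)
  have h2 := neg_abs_le (e - b)
  have h3 := abs_nonneg (e - a)
  have h4 := abs_nonneg (e - b)
  have hs : Spl t N := spl_of_lefschetz ht he hc eT hT e k N hL
    (@TStructure.isGE_of_ge _ _ _ _ _ _ _ t _ (e - k) a (by omega) ha)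
    (@TStructure.isLE_of_le _ _ _ _ _ _ _ t _ b (e + k) (by omega) hb)
  obtain ⟨a', b', hab', ha', hb'⟩ := exists_bounds he hc M
  exact sum_of_spl h hm (b' - a' + 1).toNat M a' b' (by omega) ha' hb' hM (hs.retract i r hir)

/-- Homological and numerical equivalence agree. -/
lemma homEqNum : HomEqNum (R l₀) P := fun M hM =>
  homEqNum_of_sum h hm (chowKunneth h hm M hM)

end

end Pool.Agent.T6helper6.AF
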