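import Pool.Agent.T6helper6.AF.Defs
import Pool.Agent.T6helper6.SM.Main
import Pool.Agent.T6helper6.FF.Back

/-!
# The conjectures on Chow motives imply the existence of the motivic t-structure
-/

set_option autoImplicit false
set_option linter.unusedSectionVars false
set_option linter.unusedSimpArgs false
set_option backward.isDefEq.respectTransparency false
set_option backward.defeqAttrib.useBackward true

open CategoryTheory Limits MonoidalCategory Pretriangulated Triangulated ZeroObject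

namespace Pool.Agent.T6helper6.AF

open Pool.Agent.Y116.MT Pool.Agent.V1178.MT Pool.Agent.T6helper6.MT Pool.Agent.T6helper6.FF
  Pool.Agent.T6helper6.SM

universe v u w

section Gen

variable {C : Type u} [Category.{v} C] [Preadditive C] [HasZeroObject C] [HasShift C ℤ]
  [∀ n : ℤ, (shiftFunctor C n).Additive] [Pretriangulated C]

lemma gen_iso {S : C → Prop} {X Y : C} (h : Gen S X) (e : X ≅ Y) : Gen S Y :=
  Gen.retract e.inv e.hom e.inv_hom_id h

lemma gen_biprod {S : C → Prop} {X Y : C} (hX : Gen S X) (hY : Gen S Y) : Gen S (X ⊞ Y) := by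
  have h1 := inv_rot_of_distTriang _ (binaryBiproductTriangle_distinguished X Y)
  exact Gen.cone h1 (Gen.shift (-1) hY) hX

lemma gen_trans {S P : C → Prop} (h : ∀ X, P X → Gen S X) {X : C} (hX : Gen P X) : Gen S X := by
  induction hX with
  | of hX => exact h _ hX
  | shift n _ ih => exact Gen.shift n ih
  | cone hT _ _ ih1 ih2 => exact Gen.cone hT ih1 ih2
  | retract i r hir _ ih => exact Gen.retract i r hir ih

end Gen

section

variable {C : Type u} [Category.{v} C] [Preadditive C] [HasZeroObject C] [HasShift C ℤ]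
  [∀ n : ℤ, (shiftFunctor C n).Additive] [Pretriangulated C] [MonoidalCategory C]
  [SymmetricCategory C] [TensorTriangulated C] [MonoidalPreadditive C] [RightRigidCategory C]
  [Linear ℚ C] {Λ : Type*} {E : Λ → Type w} [∀ l, Field (E l)] [∀ l, CharZero (E l)]
  {R : ∀ l, Realisation C (E l)} {l₀ : Λ} {P : C → Prop} {T : C}

/-- The vanishing conjectures. -/
def Vanishing (R : ∀ l, Realisation C (E l)) (P : C → Prop) : Prop :=
  ∀ (M : C) (w : ℤ), P M → (∀ l, (R l).Deg M w) → ∀ n : ℤ, n ≤ 0 → n ≤ w → (n ≠ 0 ∨ w ≠ 0) →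
    ∀ f : 𝟙_ C ⟶ M⟦n⟧, f = 0

/-- Rational and numerical equivalence agree in degree zero. -/
def HomNum (R : ∀ l, Realisation C (E l)) (P : C → Prop) : Prop :=
  ∀ M : C, P M → (∀ l, (R l).Deg M 0) → ∀ f : 𝟙_ C ⟶ M, f ≠ 0 → ∃ g : M ⟶ 𝟙_ C, f ≫ g ≠ 0

/-- The class of the Chow motives shifted to degree zero. -/
def Ht (R : ∀ l, Realisation C (E l)) (P : C → Prop) (X : C) : Prop :=
  (∀ l, (R l).Deg X 0) ∧ ∃ n : ℤ, P (X⟦n⟧)

variable (h : IsChow (R l₀) P T)

include h

lemma P_iso' {M N : C} (hM : P M) (e : M ≅ N) : P N := h.summand e.inv e.hom e.inv_hom_id hM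

omit h in
lemma deg_hom {E₀ : Type w} [Field E₀] [CharZero E₀] {R₀ : Realisation C E₀} {L N : C} {a b : ℤ}
    (hL : R₀.Deg L a) (hN : R₀.Deg N b) : R₀.Deg (N ⊗ Lᘁ) (b - a) := by
  have h1 : R₀.Deg (L⟦a⟧) 0 := hL.shift a 0 (by omega)
  have h2 : R₀.Deg (N ⊗ (L⟦a⟧)ᘁ) (b + 0) := hN.tensor (deg_dual h1)
  have h3 : R₀.Deg ((N ⊗ Lᘁ)⟦-a⟧) b := by simpa using h2.iso ((dualShift L a).app N).symm
  exact (h3.shift a (b - a) (by omega)).iso ((shiftEquiv C a).counitIso.app (N ⊗ Lᘁ))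

/-- Vanishing of morphisms between Chow motives with cohomology in one degree. -/
lemma hom_van (hv : Vanishing R P) {L N : C} {a b : ℤ} (hL : P L) (hN : P N)
    (dL : ∀ l, (R l).Deg L a) (dN : ∀ l, (R l).Deg N b) {m : ℤ} (hm : m ≤ b - a)
    (hne : m ≠ 0 ∨ b - a ≠ 0) (g : L ⟶ N⟦m⟧) : g = 0 := by
  by_cases h0 : 0 < m
  · exact h.positive hL hN m h0 g
  · apply eq_zero_of_nm
    rw [← cancel_mono (lShift N Lᘁ m).hom, zero_comp]
    exact hv _ (b - a) (h.tensor hN (h.dual hL)) (fun l => deg_hom (dL l) (dN l)) m (by omega) hm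
      hne _

/-- Chow motives with cohomology in one degree have regular endomorphism rings. -/
lemma reg_one (hn : HomNum R P) {L : C} (hL : P L) {n : ℤ} (dL : ∀ l, (R l).Deg L n) (l : Λ) :
    Reg (L⟦n⟧) := by
  have hX : (R l).Deg (L⟦n⟧) 0 := (dL l).shift n 0 (by omega)
  choose q hq using h.unit_scalar
  have hinj : Function.Injective (algebraMap ℚ (E l)) := (algebraMap ℚ (E l)).injective
  have hτ : ∀ a : End (L⟦n⟧), LinearMap.trace (E l) ((R l).H.obj (L⟦n⟧)) (rho (R l) (L⟦n⟧) a) =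
      algebraMap ℚ (E l) (q (tr (a : L⟦n⟧ ⟶ L⟦n⟧))) := fun a => trace_scalar hX a _ (hq _)
  let τ : End (L⟦n⟧) →ₗ[ℚ] ℚ :=
    { toFun := fun a => q (tr (a : L⟦n⟧ ⟶ L⟦n⟧))
      map_add' := fun a b => by
        apply hinj
        rw [← hτ, map_add, map_add, map_add, hτ, hτ]
      map_smul' := fun c a => by
        apply hinj
        have h1 : rho (R l) (L⟦n⟧) (c • a) = algebraMap ℚ (E l) c • rho (R l) (L⟦n⟧) a :=
          H_qsmul (R l).H c (a : L⟦n⟧ ⟶ L⟦n⟧)
        rw [← hτ, h1, map_smul, hτ, smul_eq_mul, RingHom.id_apply, smul_eq_mul, map_mul] }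
  intro f
  obtain ⟨b, hb⟩ := regular_of_trace (rho (R l) (L⟦n⟧)) τ hτ (fun a ha => by
    have h1 : nm (a : L⟦n⟧ ⟶ L⟦n⟧) ≠ 0 := fun h0 => ha (eq_zero_of_nm _ h0)
    have h2 : nm (a : L⟦n⟧ ⟶ L⟦n⟧) ≫ (endShift L n).hom ≠ 0 := by
      intro h0
      apply h1
      rw [← cancel_mono (endShift L n).hom, h0, zero_comp]
    obtain ⟨g, hg⟩ := hn _ (h.tensor hL (h.dual hL)) (fun l => by
      simpa using deg_hom (dL l) (dL l)) _ h2
    obtain ⟨b, hb⟩ : ∃ b : End (L⟦n⟧), ∀ a : End (L⟦n⟧), nm (a : L⟦n⟧ ⟶ L⟦n⟧) ≫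
        (endShift L n).hom ≫ g = tr (a ≫ b : L⟦n⟧ ⟶ L⟦n⟧) := exists_tr ((endShift L n).hom ≫ g)
    refine ⟨b, fun h0 => hg ?_⟩
    rw [Category.assoc, hb]
    have h3 : algebraMap ℚ (E l) (q (tr (a ≫ b : L⟦n⟧ ⟶ L⟦n⟧))) = 0 := by
      have h4 := hτ (b * a)
      have h5 := hτ (a * b)
      have h6 : q (tr ((a * b : End (L⟦n⟧)) : L⟦n⟧ ⟶ L⟦n⟧)) = 0 := h0
      rw [h6, map_zero, map_mul, LinearMap.trace_mul_comm, ← map_mul] at h5
      exact h4.symm.trans h5
    rw [map_eq_zero] at h3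
    rw [hq (tr (a ≫ b : L⟦n⟧ ⟶ L⟦n⟧)), h3, zero_smul]) f
  exact ⟨b, hb⟩

lemma reg_one' (hn : HomNum R P) {L : C} (hL : P L) {n : ℤ} (dL : ∀ l, (R l).Deg L n) (l : Λ) :
    Reg L := by
  intro f
  obtain ⟨g, hg⟩ := reg_one h hn hL dL l (f⟦n⟧')
  obtain ⟨g', rfl⟩ := (shiftFunctor C n).map_surjective g
  refine ⟨g', (shiftFunctor C n).map_injective ?_⟩
  rw [Functor.map_comp, Functor.map_comp]
  exact hg

lemma reg_pair (hn : HomNum R P) {L N : C} (hL : P L) (hN : P N) {n : ℤ}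
    (dL : ∀ l, (R l).Deg L n) (dN : ∀ l, (R l).Deg N n) (l : Λ) (f : L ⟶ N) :
    ∃ g : N ⟶ L, f ≫ g ≫ f = f := by
  obtain ⟨G, hG⟩ := reg_one' h hn (h.sum hL hN) (fun l => deg_biprod (R l) (dL l) (dN l)) l
    (biprod.fst ≫ f ≫ biprod.inr)
  refine ⟨biprod.inr ≫ G ≫ biprod.fst, ?_⟩
  have h1 := congrArg (fun z => biprod.inl ≫ z ≫ biprod.snd) hG
  simpa only [Category.assoc, biprod.inl_fst_assoc, biprod.inr_snd, Category.comp_id] using h1

omit h in
lemma deg_of_ht {X : C} {a : ℤ} (hX : ∀ l, (R l).Deg X 0) (l : Λ) : (R l).Deg (X⟦a⟧) (-a) :=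
  (hX l).shift a (-a) (by omega)

/-- The class satisfies the hypotheses of the criterion. -/
lemma ht_class (hv : Vanishing R P) (hn : HomNum R P) : IsHeartClass R l₀ (Ht R P) where
  retract {X Y} i r hir hX := by
    obtain ⟨h1, n, h2⟩ := hX
    refine ⟨fun l => (h1 l).retract i r hir, n, h.summand (i⟦n⟧') (r⟦n⟧') ?_ h2⟩
    rw [← Functor.map_comp, hir, CategoryTheory.Functor.map_id]
  negative {X Y} hX hY n hn0 f := by
    obtain ⟨dX, a, hX⟩ := hX
    obtain ⟨dY, b, hY⟩ := hY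
    apply (shiftFunctor C a).map_injective
    rw [Functor.map_zero, ← cancel_mono ((shiftFunctorAdd' C n a (n + a) rfl).inv.app Y),
      ← cancel_mono ((shiftFunctorAdd' C b (n + a - b) (n + a) (by omega)).hom.app Y), zero_comp,
      zero_comp]
    exact hom_van h hv hX hY (fun l => deg_of_ht dX l) (fun l => deg_of_ht dY l) (by omega)
      (by omega) _
  regular {X Y} hX hY f := by
    obtain ⟨dX, a, hX⟩ := hX
    obtain ⟨dY, b, hY⟩ := hY
    by_cases hab : a = b
    · subst hab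
      obtain ⟨g, hg⟩ := reg_pair h hn hX hY (fun l => deg_of_ht dX l) (fun l => deg_of_ht dY l) l₀
        (f⟦a⟧')
      obtain ⟨g', rfl⟩ := (shiftFunctor C a).map_surjective g
      refine ⟨g', (shiftFunctor C a).map_injective ?_⟩
      rw [Functor.map_comp, Functor.map_comp]
      exact hg
    · have h0 : f = 0 := by
        apply (shiftFunctor C a).map_injective
        rw [Functor.map_zero,
          ← cancel_mono ((shiftFunctorAdd' C b (a - b) a (by omega)).hom.app Y), zero_comp]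
        exact hom_van h hv hX hY (fun l => deg_of_ht dX l) (fun l => deg_of_ht dY l) (by omega)
          (by omega) _
      exact ⟨0, by rw [h0, zero_comp]⟩
  degree {X} hX l := hX.1 l
  conservative {X} hX h0 := by
    obtain ⟨dX, a, hX⟩ := hX
    have h1 : ∀ i : ℤ, IsZero ((R l₀).H.obj (X⟦i⟧)) := by
      intro i
      by_cases hi : i = 0
      · subst hi
        exact h0.of_iso ((R l₀).H.mapIso ((shiftFunctorZero C ℤ).app X))
      · exact dX l₀ i hi
    apply isZero_of_shift a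
    rw [IsZero.iff_id_eq_zero]
    apply eq_zero_of_nm
    by_contra hne
    have dL : ∀ l, (R l).Deg (X⟦a⟧) (-a) := fun l => deg_of_ht dX l
    obtain ⟨g, hg⟩ := hn _ (h.tensor hX (h.dual hX)) (fun l => by
      simpa using deg_hom (dL l) (dL l)) _ hne
    obtain ⟨q, hq⟩ := h.unit_scalar (nm (𝟙 (X⟦a⟧)) ≫ g)
    have hq0 : q ≠ 0 := by
      rintro rfl
      rw [zero_smul] at hq
      exact hg hq
    apply scalar_ne_zero (R l₀) hq0
    rw [← hq, nm, Functor.map_comp, Functor.map_comp, H_whisker_zero, comp_zero, zero_comp]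
    intro i
    have h2 : IsZero ((R l₀).H.obj (X⟦a⟧⟦i⟧)) :=
      (h1 (a + i)).of_iso ((R l₀).H.mapIso ((shiftFunctorAdd C a i).app X).symm)
    exact h2.eq_of_src _ _

lemma gen_all (hk : ChowKunneth R P) (X : C) : Gen (Ht R P) X := by
  apply gen_trans _ (h.generate X)
  intro M hM
  have h1 := hk M hM
  clear hM
  induction h1 with
  | @zero X hX =>
    have h2 : Gen (Ht R P) (𝟙_ C) := Gen.of ⟨fun l => deg_unit, 0,
      P_iso' h h.one ((shiftFunctorZero C ℤ).symm.app _)⟩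
    exact Gen.retract (0 : X ⟶ 𝟙_ C) 0 (hX.eq_of_src _ _) h2
  | @sum X L Y n e hL dL _ ih =>
    have h2 : Gen (Ht R P) (L⟦n⟧) := Gen.of ⟨fun l => (dL l).shift n 0 (by omega), -n,
      P_iso' h hL ((shiftEquiv C n).unitIso.app L)⟩
    have h3 : Gen (Ht R P) L := gen_iso (Gen.shift (-n) h2) ((shiftEquiv C n).unitIso.symm.app L)
    exact gen_iso (gen_biprod h3 ih) e.symm

lemma vanishing_of_injectivity (hi : Injectivity R l₀ P) : Vanishing R P := by
  intro M w hM dM n hn0 hnw hne f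
  apply hi M w hM dM n hn0 hnw f
  by_cases hn : n = 0
  · subst hn
    have h1 : IsZero ((R l₀).H.obj (M⟦(0 : ℤ)⟧)) := dM l₀ 0 (by omega)
    exact h1.eq_of_tgt _ _
  · have h4 := h.weights h.one hM n hn f 0
    have h5 : f⟦(0 : ℤ)⟧' = (shiftFunctorZero C ℤ).hom.app _ ≫ f ≫
        (shiftFunctorZero C ℤ).inv.app _ := shiftZero' (A := ℤ) (f := f)
    rw [h5, Functor.map_comp, Functor.map_comp] at h4
    rw [← cancel_epi ((R l₀).H.map ((shiftFunctorZero C ℤ).hom.app (𝟙_ C))),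
      ← cancel_mono ((R l₀).H.map ((shiftFunctorZero C ℤ).inv.app (M⟦n⟧))), Category.assoc, h4,
      comp_zero, zero_comp]

omit h in
lemma homNum_of_homEqNum (hi : Injectivity R l₀ P) (hn : HomEqNum (R l₀) P) : HomNum R P := by
  intro M hM dM f hf
  apply hn M hM f
  intro h0
  apply hf
  rw [← cancel_mono ((shiftFunctorZero C ℤ).inv.app M), zero_comp]
  apply hi M 0 hM dM 0 le_rfl le_rfl
  rw [Functor.map_comp, h0, zero_comp]

/-- The t-structure exists. -/
theorem exists_t [IsTriangulated C] [IsIdempotentComplete C] (hk : ChowKunneth R P)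
    (hi : Injectivity R l₀ P) (hn : HomEqNum (R l₀) P) : ∃ t : TStructure C, IsMotivic t R :=
  exists_of_class (ht_class h (vanishing_of_injectivity h hi) (homNum_of_homEqNum hi hn))
    (gen_all h hk)

end

end Pool.Agent.T6helper6.AF
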