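import Pool.Agent.T6helper6.FF.Defs

/-!
# Chow motives over a field: known properties and conjectures
-/

set_option autoImplicit false

open CategoryTheory Limits MonoidalCategory Pretriangulated Triangulated ZeroObject

namespace Pool.Agent.T6helper6.AF

open Pool.Agent.Y116.MT Pool.Agent.V1178.MT Pool.Agent.T6helper6.MT Pool.Agent.T6helper6.FF

universe v u w

section

variable {C : Type u} [Category.{v} C] [Preadditive C] [HasZeroObject C] [HasShift C ℤ]
  [∀ n : ℤ, (shiftFunctor C n).Additive] [Pretriangulated C] [MonoidalCategory C]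
  [SymmetricCategory C] [TensorTriangulated C]

/-- Known properties of the class `P` of Chow motives over a field, for one realisation `R₀`: the
rigid tensor structure, generation, the absence of morphisms of positive degree, the hard
Lefschetz theorem for the Lefschetz object `T` (every Chow motive is a direct summand of one with
the hard Lefschetz theorem), and weights: morphisms of nonzero degree are zero on
cohomology. -/
structure IsChow [RightRigidCategory C] [Linear ℚ C] {E₀ : Type w} [Field E₀]
    (R₀ : Realisation C E₀) (P : C → Prop) (T : C) : Prop extends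
    IsRigidClass P, IsChowClass P where
  invertible : ∃ T' : C, Nonempty (T ⊗ T' ≅ 𝟙_ C)
  degree : R₀.Deg T (-2)
  lefschetz {M : C} : P M → ∃ (N : C) (i : M ⟶ N) (r : N ⟶ M) (e : ℤ),
    i ≫ r = 𝟙 M ∧ HardLefschetz R₀ T N e
  weights {M N : C} : P M → P N → ∀ n : ℤ, n ≠ 0 → ∀ (f : M ⟶ N⟦n⟧) (i : ℤ),
    R₀.H.map (f⟦i⟧') = 0

variable {Λ : Type*} {E : Λ → Type w} [∀ l, Field (E l)]

/-- `X` is a finite direct sum of objects of `P` each of which has cohomology in one degree only. -/
inductive IsSum (R : ∀ l, Realisation C (E l)) (P : C → Prop) : C → Prop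
  | zero {X : C} : IsZero X → IsSum R P X
  | sum {X L Y : C} {n : ℤ} (e : X ≅ L ⊞ Y) : P L → (∀ l, (R l).Deg L n) → IsSum R P Y →
      IsSum R P X

/-- Chow-Künneth decompositions: every Chow motive is a direct sum of Chow motives each of which
has cohomology in one degree only. -/
def ChowKunneth (R : ∀ l, Realisation C (E l)) (P : C → Prop) : Prop :=
  ∀ M : C, P M → IsSum R P M

/-- Injectivity of the realisation `R l₀` on the morphisms `𝟙 ⟶ M⟦n⟧` for `n ≤ min(0, w)`, where `M` is
a Chow motive with cohomology in degree `w` only. For `n = w = 0` this is Murre's conjecture that there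
are no homologically trivial cycles in this part. In the other cases all these morphisms are zero in
cohomology because of the weights, so that the condition is the vanishing of these groups: Murre's
vanishing conjecture for `n = 0 < w` and the vanishing conjecture of Beilinson and Soulé for
`n < 0`. -/
def Injectivity (R : ∀ l, Realisation C (E l)) (l₀ : Λ) (P : C → Prop) : Prop :=
  ∀ (M : C) (w : ℤ), P M → (∀ l, (R l).Deg M w) → ∀ n : ℤ, n ≤ 0 → n ≤ w →
    ∀ f : 𝟙_ C ⟶ M⟦n⟧, (R l₀).H.map f = 0 → f = 0

/-- Homological and numerical equivalence agree: a morphism `𝟙 ⟶ M` to a Chow motive which is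
nonzero in cohomology has a nonzero composition with some `M ⟶ 𝟙`. -/
def HomEqNum {E₀ : Type w} [Field E₀] (R₀ : Realisation C E₀) (P : C → Prop) : Prop :=
  ∀ M : C, P M → ∀ f : 𝟙_ C ⟶ M, R₀.H.map f ≠ 0 → ∃ g : M ⟶ 𝟙_ C, f ≫ g ≠ 0

end

end Pool.Agent.T6helper6.AF
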