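import Pool.Agent.T6helper6.MT.Final
import Pool.Agent.T6helper6.FF.Fil

/-!
# Deligne's decomposition: objects with the hard Lefschetz theorem are split
-/

set_option autoImplicit false
set_option linter.unusedSectionVars false
set_option linter.unusedSimpArgs false
set_option backward.isDefEq.respectTransparency false
set_option backward.defeqAttrib.useBackward true

open CategoryTheory Limits MonoidalCategory Pretriangulated Triangulated ZeroObject

namespace Pool.Agent.T6helper6.AF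

open Pool.Agent.Y116.MT Pool.Agent.V1178.MT Pool.Agent.T6helper6.MT Pool.Agent.T6helper6.FF

universe v u w

section

variable {C : Type u} [Category.{v} C] [Preadditive C] [HasZeroObject C] [HasShift C ℤ]
  [∀ n : ℤ, (shiftFunctor C n).Additive] [Pretriangulated C] [MonoidalCategory C]
  [SymmetricCategory C] [TensorTriangulated C] [MonoidalPreadditive C] [RightRigidCategory C]
  {t : TStructure C}

/-- All truncation triangles of `X` split. -/
def Spl (t : TStructure C) (X : C) : Prop :=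
  ∀ (n : ℤ) (A B : C) (f : A ⟶ X) (g : X ⟶ B) (h : B ⟶ A⟦(1 : ℤ)⟧),
    Triangle.mk f g h ∈ distTriang C → t.IsLE A n → t.IsGE B (n + 1) → h = 0

/-- An object is split if its identity factors through split objects. -/
lemma Spl.of_id {X Z₁ Z₂ : C} {u₁ : X ⟶ Z₁} {v₁ : Z₁ ⟶ X} {u₂ : X ⟶ Z₂} {v₂ : Z₂ ⟶ X}
    (hid : u₁ ≫ v₁ + u₂ ≫ v₂ = 𝟙 X) (h1 : Spl t Z₁) (h2 : Spl t Z₂) : Spl t X := by
  intro n A B f g h hT hA hB
  have key : ∀ {Z : C} (u : X ⟶ Z) (v : Z ⟶ X), Spl t Z →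
      ∃ c : B ⟶ B, g ≫ c = (u ≫ v) ≫ g ∧ c ≫ h = 0 := by
    intro Z u v hZ
    obtain ⟨A₁, B₁, hA₁, hB₁, f₁, g₁, d₁, hT₁⟩ := t.exists_triangle Z n (n + 1) rfl
    have hA₁' : t.IsLE A₁ n := ⟨hA₁⟩
    have hB₁' : t.IsGE B₁ (n + 1) := ⟨hB₁⟩
    obtain ⟨s, hs⟩ := split3' hT₁ (hZ n A₁ B₁ f₁ g₁ d₁ hT₁ hA₁' hB₁')
    obtain ⟨b, hb⟩ := ye2 hT₁ (v ≫ g) (t.zero_of_isLE_of_isGE _ n (n + 1) (by omega) hA₁' hB)
    obtain ⟨c, hc⟩ := ye2 hT (u ≫ g₁) (t.zero_of_isLE_of_isGE _ n (n + 1) (by omega) hA hB₁')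
    refine ⟨c ≫ b, ?_, ?_⟩
    · rw [← Category.assoc, ← hc, Category.assoc, ← hb, Category.assoc]
    · have e1 : b ≫ h = 0 := by
        have e2 : b = s ≫ v ≫ g := by rw [hb, ← Category.assoc, hs, Category.id_comp]
        rw [e2, Category.assoc, Category.assoc, comp23 hT, comp_zero, comp_zero]
      rw [Category.assoc, e1, comp_zero]
  obtain ⟨c₁, k1, k2⟩ := key u₁ v₁ h1
  obtain ⟨c₂, k3, k4⟩ := key u₂ v₂ h2
  have e1 : c₁ + c₂ = 𝟙 B := by
    rw [← sub_eq_zero]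
    obtain ⟨l, hl⟩ := ye3 hT (c₁ + c₂ - 𝟙 B) (by
      rw [Preadditive.comp_sub, Preadditive.comp_add, k1, k3, ← Preadditive.add_comp, hid,
        Category.id_comp, Category.comp_id, sub_self])
    have h3 : t.IsLE (A⟦(1 : ℤ)⟧) (n - 1) := t.isLE_shift A n 1 (n - 1)
    rw [hl, t.zero_of_isLE_of_isGE l (n - 1) (n + 1) (by omega) h3 hB, comp_zero]
  rw [← Category.id_comp h, ← e1, Preadditive.add_comp, k2, k4, add_zero]

lemma Spl.retract {X Y : C} (h : Spl t X) (i : Y ⟶ X) (r : X ⟶ Y) (hir : i ≫ r = 𝟙 Y) :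
    Spl t Y :=
  Spl.of_id (u₁ := i) (v₁ := r) (u₂ := 0) (v₂ := r) (by rw [hir, zero_comp, add_zero]) h h

variable [IsTriangulated C]

/-- Objects in one degree are split. -/
lemma spl_cn {X : C} {b : ℤ} (hX : Cn t b X) : Spl t X := by
  intro n A B f g h hT hA hB
  by_cases hb : b ≤ n
  · have h1 : t.IsLE B n := isLE3 hT (@TStructure.isLE_of_le _ _ _ _ _ _ _ t _ n (n + 1)
      (by omega) hA) (@TStructure.isLE_of_le _ _ _ _ _ _ _ t _ b n hb hX.1)
    exact (t.isZero B n (n + 1) (by omega)).eq_of_src _ _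
  · have h1 : t.IsGE A (n + 1) := isGE1 hT (@TStructure.isGE_of_ge _ _ _ _ _ _ _ t _ (n + 1) b
      (by omega) hX.2) (@TStructure.isGE_of_ge _ _ _ _ _ _ _ t _ (n + 1 - 1) (n + 1) (by omega) hB)
    exact (isZero_shift (t.isZero A n (n + 1) (by omega)) 1).eq_of_tgt _ _

end

section Twist

variable {C : Type u} [Category.{v} C] [Preadditive C] [HasZeroObject C] [HasShift C ℤ]
  [∀ n : ℤ, (shiftFunctor C n).Additive] [Pretriangulated C] [MonoidalCategory C]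
  [SymmetricCategory C] [TensorTriangulated C]

/-- The twist of a morphism. -/
def twMap (T : C) {X Y : C} (f : X ⟶ Y) : ∀ k : ℕ, twist T X k ⟶ twist T Y k
  | 0 => f
  | k + 1 => twMap T f k ▷ T

lemma twMap_id (T X : C) (k : ℕ) : twMap T (𝟙 X) k = 𝟙 _ := by
  induction k with
  | zero => rfl
  | succ k ih =>
    change twMap T (𝟙 X) k ▷ T = _
    rw [ih, id_whiskerRight]
    rfl

lemma twMap_comp (T : C) {X Y Z : C} (f : X ⟶ Y) (g : Y ⟶ Z) (k : ℕ) :
    twMap T (f ≫ g) k = twMap T f k ≫ twMap T g k := by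
  induction k with
  | zero => rfl
  | succ k ih =>
    change twMap T (f ≫ g) k ▷ T = twMap T f k ▷ T ≫ twMap T g k ▷ T
    rw [ih, comp_whiskerRight]

lemma twMap_add [MonoidalPreadditive C] (T : C) {X Y : C} (f g : X ⟶ Y) (k : ℕ) :
    twMap T (f + g) k = twMap T f k + twMap T g k := by
  induction k with
  | zero => rfl
  | succ k ih =>
    change twMap T (f + g) k ▷ T = twMap T f k ▷ T + twMap T g k ▷ T
    rw [ih, MonoidalPreadditive.add_whiskerRight]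

/-- A morphism has a section if its twist has one. -/
lemma section_of_whisker {T T' : C} (e : T ⊗ T' ≅ 𝟙_ C) {X Y : C} (f : X ⟶ Y)
    {s : Y ⊗ T ⟶ X ⊗ T} (hs : s ≫ f ▷ T = 𝟙 _) : ∃ s : Y ⟶ X, s ≫ f = 𝟙 _ := by
  let φ : ∀ Z : C, (Z ⊗ T) ⊗ T' ≅ Z := fun Z => α_ Z T T' ≪≫ (whiskerLeftIso Z e) ≪≫ ρ_ Z
  have hφ : (f ▷ T) ▷ T' ≫ (φ Y).hom = (φ X).hom ≫ f := by
    simp only [φ, Iso.trans_hom, whiskerLeftIso_hom, Category.assoc]
    rw [associator_naturality_left_assoc, ← whisker_exchange_assoc, rightUnitor_naturality]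
  refine ⟨(φ Y).inv ≫ s ▷ T' ≫ (φ X).hom, ?_⟩
  simp only [Category.assoc]
  rw [← hφ, ← comp_whiskerRight_assoc, hs, id_whiskerRight, Category.id_comp, Iso.inv_hom_id]

lemma section_of_twMap {T T' : C} (e : T ⊗ T' ≅ 𝟙_ C) {X Y : C} (f : X ⟶ Y) (k : ℕ) :
    (∃ s, s ≫ twMap T f k = 𝟙 _) → ∃ s : Y ⟶ X, s ≫ f = 𝟙 _ := by
  induction k with
  | zero => exact id
  | succ k ih =>
    rintro ⟨s, hs⟩
    exact ih (section_of_whisker e (twMap T f k) hs)

end Twist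

section Tr

variable {C : Type u} [Category.{v} C] [Preadditive C] [HasZeroObject C] [HasShift C ℤ]
  [∀ n : ℤ, (shiftFunctor C n).Additive] [Pretriangulated C] [MonoidalCategory C]
  [SymmetricCategory C] [TensorTriangulated C] [MonoidalPreadditive C] [RightRigidCategory C]
  [IsTriangulated C] {t : TStructure C}

/-- The fibre of `f` lies in degrees `≤ b`. -/
def FibLE (t : TStructure C) (b : ℤ) {X Y : C} (f : X ⟶ Y) : Prop :=
  ∃ (N : C) (a : N ⟶ X) (d : Y ⟶ N⟦(1 : ℤ)⟧), Triangle.mk a f d ∈ distTriang C ∧ t.IsLE N b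

lemma FibLE.whisker (ht : TensorCompat t) {T : C} (hT : Cn t (-2) T) {b : ℤ} {X Y : C}
    {f : X ⟶ Y} (h : FibLE t b f) : FibLE t (b - 2) (f ▷ T) := by
  obtain ⟨N, a, d, hD, hN⟩ := h
  have h1 := tensor_dist T hD
  have h2 := dist_isos h1 (β_ T N) (β_ T X) (β_ T Y)
  have h3 : (β_ T X).inv ≫ T ◁ f ≫ (β_ T Y).hom = f ▷ T := by
    rw [Iso.inv_comp_eq, BraidedCategory.braiding_naturality_right]
  rw [h3] at h2
  refine ⟨N ⊗ T, _, _, h2, ?_⟩
  have h4 := ht.isLE hN hT.1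
  rwa [show b + -2 = b - 2 by ring] at h4

lemma FibLE.twMap (ht : TensorCompat t) {T : C} (hT : Cn t (-2) T) {b : ℤ} {X Y : C}
    {f : X ⟶ Y} (h : FibLE t b f) (k : ℕ) : FibLE t (b - 2 * k) (twMap T f k) := by
  induction k with
  | zero =>
    have h1 : FibLE t b f := h
    have h2 : b - 2 * ((0 : ℕ) : ℤ) = b := by simp
    rw [h2]
    exact h1
  | succ k ih =>
    have h1 := ih.whisker ht hT
    rwa [show b - 2 * (k : ℤ) - 2 = b - 2 * ((k + 1 : ℕ) : ℤ) by push_cast; ring] at h1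

lemma twist_le (ht : TensorCompat t) {T : C} (hT : Cn t (-2) T) {b : ℤ} {X : C}
    (h : t.IsLE X b) (k : ℕ) : t.IsLE (twist T X k) (b - 2 * k) := by
  induction k with
  | zero => simpa [twist] using h
  | succ k ih =>
    have h4 := ht.isLE ih hT.1
    rwa [show b - 2 * (k : ℤ) + -2 = b - 2 * ((k + 1 : ℕ) : ℤ) by push_cast; ring] at h4

lemma twist_ge (ht : TensorCompat t) {T : C} (hT : Cn t (-2) T) {b : ℤ} {X : C}
    (h : t.IsGE X b) (k : ℕ) : t.IsGE (twist T X k) (b - 2 * k) := by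
  induction k with
  | zero => simpa [twist] using h
  | succ k ih =>
    have h4 := ht.isGE ih hT.2
    rwa [show b - 2 * (k : ℤ) + -2 = b - 2 * ((k + 1 : ℕ) : ℤ) by push_cast; ring] at h4

variable {E : Type w} [Field E] {R : Realisation C E}

lemma FibLE.isIso (he : TExact t R) {b : ℤ} {X Y : C} {f : X ⟶ Y} (h : FibLE t b f) {n : ℤ}
    (hn : b < n) : IsIso (R.H.map (f⟦n⟧')) := by
  obtain ⟨N, a, d, hD, hN⟩ := h
  exact isIso_trunc' he hD (@TStructure.isLE_of_le _ _ _ _ _ _ _ t _ b (n - 1) (by omega) hN)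

/-- Isomorphisms on cohomology from a decomposition of the identity. -/
lemma isIso_of_decomp {M A N B : C} {n : ℤ} {s : M ⟶ A} {a : A ⟶ M} {r : M ⟶ N} {i : N ⟶ M}
    {p : M ⟶ B} {q : B ⟶ M} (hid : s ≫ a + r ≫ i + p ≫ q = 𝟙 M) (hir : i ≫ r = 𝟙 N)
    (hA : IsZero (R.H.obj (A⟦n⟧))) (hB : IsZero (R.H.obj (B⟦n⟧))) :
    IsIso (R.H.map (r⟦n⟧')) ∧ IsIso (R.H.map (i⟦n⟧')) := by
  have h1 : R.H.map (r⟦n⟧') ≫ R.H.map (i⟦n⟧') = 𝟙 _ := by
    have h2 : R.H.map ((s ≫ a + r ≫ i + p ≫ q)⟦n⟧') = 𝟙 _ := by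
      rw [hid, CategoryTheory.Functor.map_id, CategoryTheory.Functor.map_id]
    simp only [Functor.map_add, Functor.map_comp] at h2
    rw [hA.eq_of_tgt (R.H.map (s⟦n⟧')) 0, hB.eq_of_tgt (R.H.map (p⟦n⟧')) 0, zero_comp, zero_comp,
      zero_add, add_zero] at h2
    exact h2
  have h2 : R.H.map (i⟦n⟧') ≫ R.H.map (r⟦n⟧') = 𝟙 _ := by
    rw [← Functor.map_comp, ← Functor.map_comp, hir, CategoryTheory.Functor.map_id,
      CategoryTheory.Functor.map_id]
  exact ⟨⟨_, h1, h2⟩, ⟨_, h2, h1⟩⟩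

end Tr

end Pool.Agent.T6helper6.AF
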